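import Mathlib
import Pool.Agent.Y902.FD.Fin

/-!
# abc triples of near powers, counted by their bases

For every `K` and `ε > 0` there are `R` and `δ > 0` such that for all large `Y` there are at most
`Y ^ ε` abc triples `a + b = c` with `c ≤ exp (Y ^ δ)` whose terms are `a = α x ^ l`, `b = β y ^ m`,
`c = γ z ^ n` with `x, y, z ≤ Y`, with exponents at least `2` of which one is at least `R`, and with
coefficients `α, β, γ ≤ Y ^ K` with radicals at most `Y ^ δ`. The radical of `a b c` may be as large as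
`Y ^ (3 + 3 δ)` for such triples.

Method: the `p`-adic determinant method on the surfaces `α x ^ l + β y ^ m = γ z ^ n` uniformly in
coefficients and exponents, a weighted Euler operator, and the tangent vectors of the curves so
obtained at the integral points.
-/

set_option autoImplicit false

namespace Pool.Agent.Results.MP_7aad9f_nt.NearPowersByBases

/-- the radical: the product of the distinct primes dividing `m` -/
def R (m : ℕ) : ℕ := ∏ p ∈ m.primeFactors, p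

/-- `a = α x ^ l` with `1 ≤ x ≤ Y`, a coefficient `1 ≤ α ≤ B` with `R α ≤ ρ`, and `l ≥ 2` -/
def NearPower (Y B : ℕ) (ρ : ℝ) (l a : ℕ) : Prop :=
  2 ≤ l ∧ ∃ α x : ℕ, 0 < α ∧ α ≤ B ∧ (R α : ℝ) ≤ ρ ∧ 0 < x ∧ x ≤ Y ∧ a = α * x ^ l

/-- the abc triples with `c ≤ V` whose terms are near powers with an exponent at least `L` -/
def Triples (Y L B : ℕ) (ρ V : ℝ) : Set (ℕ × ℕ × ℕ) :=
  {t | ∃ a b c l m n : ℕ, t = (a, b, c) ∧ 0 < a ∧ 0 < b ∧ Nat.Coprime a b ∧ a + b = c ∧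
    (c : ℝ) ≤ V ∧ NearPower Y B ρ l a ∧ NearPower Y B ρ m b ∧ NearPower Y B ρ n c ∧
    (L ≤ l ∨ L ≤ m ∨ L ≤ n)}

/-- For every `K` and every `ε > 0` there are `L`, `δ > 0` and `Y₀` such that for `Y ≥ Y₀` there are
at most `Y ^ ε` triples in `Triples Y L (Y ^ K) (Y ^ δ) (exp (Y ^ δ))`. -/
theorem result (K : ℕ) (ε : ℝ) (hε : 0 < ε) :
    ∃ (L : ℕ) (δ : ℝ) (Y₀ : ℕ), 0 < δ ∧ ∀ Y : ℕ, Y₀ ≤ Y →
      (Triples Y L (Y ^ K) ((Y : ℝ) ^ δ) (Real.exp ((Y : ℝ) ^ δ))).Finite ∧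
      ((Triples Y L (Y ^ K) ((Y : ℝ) ^ δ) (Real.exp ((Y : ℝ) ^ δ))).ncard : ℝ) ≤ (Y : ℝ) ^ ε := by
  obtain ⟨L, δ, Y₀, hδ, h⟩ := Pool.Agent.Y902.FD.rad_one (K + 1) (by omega) ε hε
  refine ⟨L, δ, Y₀ + 1, hδ, fun Y hY => ?_⟩
  have hY1 : (1 : ℝ) ≤ Y := by exact_mod_cast (show 1 ≤ Y by omega)
  obtain ⟨h1, h2⟩ := h Y (by omega)
  set W := Pool.Agent.Y902.FD.RadOne Y L ((Y : ℝ) ^ (K + 1)) ((Y : ℝ) ^ δ)
        (Real.exp ((Y : ℝ) ^ δ)) with hW
  set f : ℕ × ℕ × ℕ → ℤ × ℤ × ℤ := fun t => ((t.1 : ℤ), (t.2.1 : ℤ), (t.2.2 : ℤ)) with hf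
  have hinj : Function.Injective f := by
    rintro ⟨a, b, c⟩ ⟨a', b', c'⟩ h
    simp only [hf, Prod.mk.injEq, Nat.cast_inj] at h
    obtain ⟨h1, h2, h3⟩ := h
    subst h1; subst h2; subst h3
    rfl
  have hsub : f '' Triples Y L (Y ^ K) ((Y : ℝ) ^ δ) (Real.exp ((Y : ℝ) ^ δ)) ⊆ W := by
    rintro _ ⟨t, ⟨a, b, c, l, m, n, rfl, ha, hb, hab, habc, hc, ⟨hl, α, x, hα, hαB, hαρ, hx, hxY, ea⟩,
      ⟨hm, β, y, hβ, hβB, hβρ, hy, hyY, eb⟩, ⟨hn, γ, z, hγ, hγB, hγρ, hz, hzY, ec⟩, hL⟩, rfl⟩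
    have hB : ∀ d : ℕ, d ≤ Y ^ K → ((|(d : ℤ)| : ℤ) : ℝ) ≤ (Y : ℝ) ^ (K + 1) := by
      intro d hd
      rw [abs_of_nonneg (by positivity)]
      have h1 : (((d : ℕ) : ℤ) : ℝ) ≤ ((Y ^ K : ℕ) : ℝ) := by
        rw [Int.cast_natCast]
        exact_mod_cast hd
      refine h1.trans ?_
      push_cast
      exact pow_le_pow_right₀ hY1 (by omega)
    have hT : ∀ d : ℕ, d ≤ c → ((|(d : ℤ)| : ℤ) : ℝ) ≤ Real.exp ((Y : ℝ) ^ δ) := by
      intro d hd
      rw [abs_of_nonneg (by positivity)]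
      refine le_trans ?_ hc
      rw [Int.cast_natCast]
      exact_mod_cast hd
    have habs : ∀ d : ℕ, d ≤ Y → |(d : ℤ)| ≤ (Y : ℤ) := by
      intro d hd
      rw [abs_of_nonneg (by positivity)]
      exact_mod_cast hd
    have hr : ∀ d : ℕ, (R d : ℝ) ≤ (Y : ℝ) ^ δ →
        (Pool.Agent.Y902.FD.rd (d : ℤ) : ℝ) ≤ (Y : ℝ) ^ δ := fun d hd => hd
    have hg : Int.gcd ((Int.gcd ((α : ℤ) * x) ((β : ℤ) * y) : ℕ) : ℤ) ((γ : ℤ) * z) = 1 := by
      have e1 : Int.gcd ((α : ℤ) * x) ((β : ℤ) * y) = 1 := by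
        have h1 : Nat.Coprime (α * x) (β * y) := by
          have h2 : α * x ∣ a := by
            rw [ea]; exact Nat.mul_dvd_mul_left _ (dvd_pow_self x (by omega))
          have h3 : β * y ∣ b := by
            rw [eb]; exact Nat.mul_dvd_mul_left _ (dvd_pow_self y (by omega))
          exact Nat.Coprime.coprime_dvd_left h2 (Nat.Coprime.coprime_dvd_right h3 hab)
        have h4 : ((α : ℤ) * x) = ((α * x : ℕ) : ℤ) := by push_cast; rfl
        have h5 : ((β : ℤ) * y) = ((β * y : ℕ) : ℤ) := by push_cast; rfl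
        rw [h4, h5, Int.gcd_natCast_natCast]
        exact h1
      rw [e1]
      simp
    refine ⟨⟨hT a (by omega), hT b (by omega), hT c le_rfl⟩, α, β, γ, x, y, z, l, m, n,
      ⟨by exact_mod_cast hα.ne', by exact_mod_cast hβ.ne', by exact_mod_cast hγ.ne',
        by exact_mod_cast hx.ne', by exact_mod_cast hy.ne', by exact_mod_cast hz.ne',
        habs x hxY, habs y hyY, habs z hzY, hg, ?_⟩, hl, hm, hn, hL, hB α hαB, hB β hβB, hB γ hγB,
      hr α hαρ, hr β hβρ, hr γ hγρ, ?_⟩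
    · exact_mod_cast (by rw [← ea, ← eb, ← ec]; exact habc : α * x ^ l + β * y ^ m = γ * z ^ n)
    · simp only [hf, Prod.mk.injEq]
      refine ⟨?_, ?_, ?_⟩
      · rw [ea]; push_cast; rfl
      · rw [eb]; push_cast; rfl
      · rw [ec]; push_cast; rfl
  have hfin : (Triples Y L (Y ^ K) ((Y : ℝ) ^ δ) (Real.exp ((Y : ℝ) ^ δ))).Finite :=
    Set.Finite.of_finite_image (h1.subset hsub) hinj.injOn
  refine ⟨hfin, le_trans ?_ h2⟩
  rw [← Set.ncard_image_of_injective _ hinj]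
  exact_mod_cast Set.ncard_le_ncard hsub h1

end Pool.Agent.Results.MP_7aad9f_nt.NearPowersByBases
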